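import Pool.Agent.L7h33.LP.Core
import Pool.Agent.L7h33.LP.Colour

/-!
# Locally planar even-faced graphs on orientable surfaces are 4-list colourable (Q1 of MP_caf32e_co)

For every `g` there is a constant `N` (for instance `46 g + 6`) such that every finite graph `G`
embedded in a closed orientable surface of genus at most `g`, with all faces of even length and
with all noncontractible cycles of length at least `N`, is 4-list colourable.

Embeddings (`Pool.Agent.L7h33.LP.Defs`): a finite connected graph `H` with a rotation system is a
cellular embedding of `H` in a closed oriented surface `S`, whose Euler characteristic is given by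
Euler's formula. An arbitrary embedding of a graph `G` in `S` (cellular or not, connected or not) is
given by such a graph `H` which contains `G`: add vertices and edges inside the faces of `G` until
the graph is simple, connected and cellularly embedded. The faces of `G` are the classes of faces
of `H` which are connected with each other across edges outside `G`.

Idea of the proof. Suppose that `W` is a minimal set of vertices whose induced subgraph `K` in `G`
is not colourable from the given lists of size four. Then `K` has minimum degree at least four, and
every 4-cycle of `K` contains a vertex of degree at least five, since a 4-cycle is 2-choosable. As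
contractible cycles of `G` have even length, `K` has no 3-cycles and 5-cycles. By a dimension count
in the mod 2 homology, `K` satisfies Euler's inequality for the genus `g`, and it follows that `K`
has few vertices of degree at least five, few faces of length four, and then at most `46 (g - 1)`
vertices. But then all cycles of `K` are contractible, so `K` satisfies Euler's inequality for
planar bipartite graphs, which contradicts the minimum degree.
-/

set_option autoImplicit false

namespace Pool.Agent.Results.MP_caf32e_co.FourListColourable

open SimpleGraph Finset Pool.Agent.L7h33.LP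

/-- `G` has no triangle -/
lemma no_triangle {U : Type*} [Fintype U] [DecidableEq U] {H : SimpleGraph U} [DecidableRel H.Adj]
    (R : Rotation H) (G : SimpleGraph U) (hGH : G ≤ H) (hR : R.EvenFaced G) (N : ℕ) (hN : 4 ≤ N)
    (hNC : ∀ (v : U) (c : H.Walk v v), c.IsCycle → (∀ e ∈ c.edges, e ∈ G.edgeSet) →
      ¬ R.Contractible c → N ≤ c.length)
    (a b x : U) (h1 : G.Adj a b) (h2 : G.Adj b x) (h3 : G.Adj x a) : False := by
  let c : H.Walk a a := .cons (hGH h1) (.cons (hGH h2) (.cons (hGH h3) .nil))
  have hc : c.IsCycle := by
    rw [Walk.isCycle_def]
    refine ⟨?_, by simp [c], ?_⟩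
    · rw [Walk.isTrail_def]
      simp [c, h1.ne, h2.ne, h3.ne, h1.ne', h2.ne', h3.ne']
    · simp [c, h1.ne, h2.ne, h3.ne, h1.ne', h2.ne', h3.ne']
  have hl : c.length = 3 := by simp [c]
  have hcG : ∀ e ∈ c.edges, e ∈ G.edgeSet := by
    intro e he
    simp only [c, Walk.edges_cons, Walk.edges_nil, List.mem_cons, List.not_mem_nil, or_false] at he
    rcases he with rfl | rfl | rfl
    · exact h1
    · exact h2
    · exact h3
  have hcon : R.Contractible c := by
    by_contra h
    have := hNC a c hc hcG h
    omega
  have := even_of_contractible R G hR c hcG (contractible_inv R hcon)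
  rw [hl] at this
  exact absurd this (by decide)

/-- the theorem for a spanning subgraph `G` of `H` -/
theorem spanning (g : ℕ) {U : Type*} [Finite U] (H G : SimpleGraph U) (R : Rotation H)
    (hH : H.Connected) (hchi : 2 - 2 * (g : ℤ) ≤ R.euler) (hGH : G ≤ H) (hR : R.EvenFaced G)
    (hNC : ∀ (v : U) (c : H.Walk v v), c.IsCycle → (∀ e ∈ c.edges, e ∈ G.edgeSet) →
      ¬ R.Contractible c → 46 * g + 6 ≤ c.length) : ListColourable G 4 := by
  intro L hL
  classical
  have : Fintype U := Fintype.ofFinite U
  by_contra hcon
  have hnc : ¬ Col G L univ := by
    rintro ⟨c, hc1, hc2⟩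
    exact hcon ⟨c, fun v => hc1 v (mem_univ v), fun u v h => hc2 u (mem_univ u) v (mem_univ v) h⟩
  obtain ⟨W, -, hW1, hW2⟩ := exists_minimal L univ hnc
  have hne : W.Nonempty := by
    rw [nonempty_iff_ne_empty]
    rintro rfl
    exact hW1 ⟨fun _ => 0, by simp, by simp⟩
  have hdeg : ∀ v ∈ W, 4 ≤ dW G W v := by
    intro v hv
    by_contra hlt
    apply hW1
    apply extend_one L W v hv (hW2 _ (erase_ssubset hv))
    unfold dW at hlt
    have := hL v
    omega
  refine core R hH G hGH hR g (46 * g + 6) hchi le_rfl hNC W hne hdeg ?_
  intro a b x y ha hb hx hy h1 h2 h3 h4 hax hby da db dx dy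
  apply hW1
  refine extend_four L W a b x y ha hb hx hy h1 h2 h3 h4 hax hby ?_ ?_ (fun v _ => hL v)
    da db dx dy (hW2 _ ?_)
  · intro h
    exact no_triangle R G hGH hR _ (by omega) hNC a b x h1 h2 h.symm
  · intro h
    exact no_triangle R G hGH hR _ (by omega) hNC b x y h2 h3 h.symm
  · rw [ssubset_iff_of_subset sdiff_subset]
    exact ⟨a, ha, by simp⟩

/-- **Q1 of MP_caf32e_co.** For every `g` there is a constant `N ≤ 46 g + 6` such that every
graph `G` embedded in a closed orientable surface of genus at most `g`, with all faces of even
length and with all noncontractible cycles of length at least `N`, is 4-list colourable.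

The embedding of `G` is given by an injection `φ` of its vertices into the vertices of a finite
connected graph `H` which contains the image `G.map φ` of `G` and which is cellularly embedded in
the surface by the rotation system `R`; the genus is at most `g` if and only if the Euler
characteristic is at least `2 - 2 g`. -/
theorem result (g : ℕ) : ∃ N : ℕ, N ≤ 46 * g + 6 ∧
    ∀ (V U : Type) [Finite U] (G : SimpleGraph V) (H : SimpleGraph U) (φ : V ↪ U) (R : Rotation H)
      (hle : G.map φ ≤ H), H.Connected → 2 - 2 * (g : ℤ) ≤ R.euler → R.EvenFaced (G.map φ) →
      (∀ (v : U) (c : (G.map φ).Walk v v), c.IsCycle → ¬ R.Contractible (c.mapLe hle) →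
        N ≤ c.length) →
      ListColourable G 4 := by
  refine ⟨46 * g + 6, le_rfl, ?_⟩
  intro V U _ G H φ R hle hH hchi hR hNC
  have h1 : ListColourable (G.map φ) 4 := by
    apply spanning g H (G.map φ) R hH hchi hle hR
    intro v c hc hcG hcon
    have h2 := hNC v (c.transfer _ hcG) (hc.transfer hcG) (by
      have h3 : (c.transfer _ hcG).mapLe hle = c := by
        unfold Walk.mapLe
        rw [← Walk.transfer_eq_map_ofLE (c.transfer _ hcG) (fun e he => edgeSet_mono hle
          ((c.transfer _ hcG).edges_subset_edgeSet he)) hle, Walk.transfer_transfer,
          Walk.transfer_self]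
      rw [h3]
      exact hcon)
    rwa [Walk.length_transfer] at h2
  intro L hL
  classical
  obtain ⟨c, hc1, hc2⟩ := h1 (fun u => if h : ∃ v, φ v = u then L h.choose else range 4) (by
    intro u
    by_cases h : ∃ v, φ v = u
    · simp only [dif_pos h]
      exact hL _
    · simp only [dif_neg h]
      simp)
  refine ⟨fun v => c (φ v), fun v => ?_, fun u v huv => hc2 _ _ ?_⟩
  · have h2 := hc1 (φ v)
    have h3 : ∃ w, φ w = φ v := ⟨v, rfl⟩
    simp only [dif_pos h3] at h2
    rwa [φ.injective h3.choose_spec] at h2
  · rw [SimpleGraph.map_adj]
    exact ⟨u, v, huv, rfl, rfl⟩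

end Pool.Agent.Results.MP_caf32e_co.FourListColourable
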